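import Pool.Agent.K4H95.LQ.Pw
import Pool.Agent.K4H95.LQ.B

/-!
# The first moment of quadratic Dirichlet L-functions times Euler products

Let `χ` run over ALL real primitive characters `χ ≠ 1` of a given parity and of conductor `≤ X` (the Kronecker symbols
`(d/·)`, `d ≠ 1` a fundamental discriminant of a given sign, `|d| ≤ X`), and for real exponents `w(p)` let

`E_w(χ) = ∏_p (1 - χ(p) p^{-1/2})^{-w(p)}`.

A. If `∑_p |w(p)| p^{-1/8} < ∞`, then the average of `L(1/2, χ) E_w(χ)` is asymptotic to `c(w) log X`, with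
`c(w) = (1/2) ∏_p (1 - 1/p) loc_p(1 + w(p))`, where
`loc_p(x) = (((1 - p^{-1/2})^{-x} + (1 + p^{-1/2})^{-x}) / 2 + 1/p) / (1 + 1/p)`; the arithmetic factor of Conrey, Farmer,
Keating, Rubinstein and Snaith is `a_k = ∏_p (1 - 1/p)^{k(k+1)/2} loc_p(k)`.

B. Smooth products over all primes: `Z_T(χ) = E_w(χ)` with `w(p) = cos(β log p / T) / Γ(1 + log p / T)`. For every real `k`
the average of `L(1/2, χ) Z_T(χ)^k` is asymptotic to `c log X` with `c = c_k(T) ~ (1/2) a_{k+1} κ₁^k κ₂^{k²} T^{k(k+3)/2}` as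
`T → ∞`. If `β > π/2`, then `Z_T(χ) → √2 |L(1/2, χ)|` as `T → ∞` for EVERY real primitive `χ ≠ 1` with `L(1/2, χ) ≠ 0`,
and if `L(s, χ)` vanishes at `1/2` to the order `m`, then `T^m Z_T(χ)` has a positive limit.

Altogether there are `1 + k(k+3)/2 = (k+1)(k+2)/2` logarithms, as in the conjecture for the moment of the order `k + 1`,
and the arithmetic factor is the conjectured one.

Pieces of the proof were written by helper75 (A1), helper26 (A2), helper64 (A3), helper94 (B), helper91 (C, P) and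
helper97 (D).
-/

set_option autoImplicit false

open Filter Topology

namespace Pool.Agent.Results.MP_ea46f5_nt.FirstMomentEulerProduct

/-- The real primitive characters `χ ≠ 1` with `χ(-1) = s` and conductor at most `X`. -/
def family (s : ℤ) (X : ℕ) : Set (Σ N : ℕ, DirichletCharacter ℂ N) :=
  {χ | χ.1 ≠ 0 ∧ χ.1 ≤ X ∧ χ.2.IsPrimitive ∧ χ.2 ^ 2 = 1 ∧ χ.2 ≠ 1 ∧ χ.2 (-1) = (s : ℂ)}

/-- The average over the characters of the parity `s` and of conductor at most `X`. -/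
noncomputable def average (s : ℤ) (X : ℕ) (f : (Σ N : ℕ, DirichletCharacter ℂ N) → ℝ) : ℝ :=
  (∑ᶠ χ ∈ family s X, f χ) / (family s X).ncard

/-- The central value `L(1/2, χ)` (its real part; it is real for a real character). -/
noncomputable def central (χ : Σ N : ℕ, DirichletCharacter ℂ N) : ℝ :=
  if h : χ.1 = 0 then 0 else (haveI : NeZero χ.1 := ⟨h⟩; (χ.2.LFunction (1 / 2)).re)

/-- `E_w(χ) = ∏_p (1 - χ(p) p^{-1/2})^{-w(p)}`. -/
noncomputable def E (w : ℕ → ℝ) (χ : Σ N : ℕ, DirichletCharacter ℂ N) : ℝ :=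
  ∏' p : Nat.Primes, (1 - (χ.2 ((p : ℕ) : ZMod χ.1)).re * (√((p : ℕ) : ℝ))⁻¹) ^ (-w p)

/-- `(((1 - p^{-1/2})^{-x} + (1 + p^{-1/2})^{-x}) / 2 + 1/p) / (1 + 1/p)`. -/
noncomputable def loc (p : Nat.Primes) (x : ℝ) : ℝ :=
  (1 / 2 * ((1 - (√((p : ℕ) : ℝ))⁻¹) ^ (-x) + (1 + (√((p : ℕ) : ℝ))⁻¹) ^ (-x)) + 1 / (p : ℕ)) / (1 + 1 / (p : ℕ))

/-- `c(w) = (1/2) ∏_p (1 - 1/p) loc_p(1 + w(p))`. -/
noncomputable def co (w : ℕ → ℝ) : ℝ :=
  1 / 2 * ∏' p : Nat.Primes, (1 - 1 / ((p : ℕ) : ℝ)) * loc p (1 + w p)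

/-- The factor of `a_k` at `p`. -/
noncomputable def arithFactor (k : ℝ) (p : Nat.Primes) : ℝ :=
  (1 - (((p : ℕ) : ℝ))⁻¹) ^ (k * (k + 1) / 2) * loc p k

/-- The arithmetic factor `a_k`. -/
noncomputable def arith (k : ℝ) : ℝ := ∏' p : Nat.Primes, arithFactor k p

/-- The exponents of `Z_T`. -/
noncomputable def smooth (β T : ℝ) (n : ℕ) : ℝ := Real.cos (β * (Real.log n / T)) / Real.Gamma (1 + Real.log n / T)

open Pool.Agent.X278.AV Pool.Agent.K4H95.LQ Pool.Agent.H306R2.RG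

theorem family_eq (s : ℤ) (X : ℕ) : family s X = Chs s X := by
  ext χ
  unfold family Chs LnkC.RPC
  simp only [Set.mem_ofPred_eq]
  tauto

theorem val_abs (χ : Σ N : ℕ, DirichletCharacter ℂ N) (p : Nat.Primes) : |(χ.2 ((p : ℕ) : ZMod χ.1)).re| ≤ 1 :=
  (Complex.abs_re_le_norm _).trans (DirichletCharacter.norm_le_one χ.2 _)

theorem E_eq {w : ℕ → ℝ} (hw : WS w) (χ : Σ N : ℕ, DirichletCharacter ℂ N) :
    E w χ = Real.exp (∑' p : Nat.Primes, w p * Yq p (χ.2 ((p : ℕ) : ZMod χ.1)).re) := by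
  have h1 := (w_sum hw (val_abs χ)).of_abs
  have h2 : ∀ p : Nat.Primes, (1 - (χ.2 ((p : ℕ) : ZMod χ.1)).re * (√((p : ℕ) : ℝ))⁻¹) ^ (-w p) =
      Real.exp (w p * Yq p (χ.2 ((p : ℕ) : ZMod χ.1)).re) := by
    intro p
    obtain ⟨h3, -⟩ := Yq_bd p (val_abs χ p)
    rw [Real.rpow_def_of_pos h3]
    congr 1
    unfold Yq
    ring
  have h3 : HasProd (fun p : Nat.Primes => Real.exp (w p * Yq p (χ.2 ((p : ℕ) : ZMod χ.1)).re))
      (Real.exp (∑' p : Nat.Primes, w p * Yq p (χ.2 ((p : ℕ) : ZMod χ.1)).re)) := by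
    refine Real.hasProd_of_hasSum_log (fun p => Real.exp_pos _) ?_
    simp only [Real.log_exp]
    exact h1.hasSum
  unfold E
  rw [tprod_congr h2]
  exact h3.tprod_eq

theorem E_pow {w : ℕ → ℝ} (hw : WS w) (k : ℝ) (χ : Σ N : ℕ, DirichletCharacter ℂ N) :
    E (fun n => k * w n) χ = E w χ ^ k := by
  have hk : WS fun n => k * w n := by
    refine (Summable.mul_left |k| hw).congr fun p => ?_
    rw [abs_mul]
    ring
  rw [E_eq hk, E_eq hw, ← Real.exp_mul, mul_comm _ k, ← tsum_mul_left]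
  congr 1
  exact tsum_congr fun p => by ring

theorem WS_mul {w : ℕ → ℝ} (hw : WS w) (k : ℝ) : WS fun n => k * w n := by
  refine (Summable.mul_left |k| hw).congr fun p => ?_
  rw [abs_mul]
  ring

theorem WS_smooth (β : ℝ) {T : ℝ} (hT : 0 < T) : WS (smooth β T) := by
  refine ((a3 β).1 1 T hT).congr fun p => ?_
  rw [one_mul]
  rfl

/-- the averages -/
theorem main {w : ℕ → ℝ} (hw : WS w) {s : ℤ} (hs : s = 1 ∨ s = -1) :
    Tendsto (fun X : ℕ => average s X (fun χ => central χ * E w χ) / Real.log X) atTop (𝓝 (co w)) := by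
  have h1 := total_lim b hw hs
  have h2 := count_lim hs
  have h3 := h1.div h2 (by positivity)
  have e1 : 3 / Real.pi ^ 2 * ck w / (3 / Real.pi ^ 2) = co w := by
    have : (3 / Real.pi ^ 2 : ℝ) ≠ 0 := by positivity
    rw [mul_div_assoc, mul_comm, div_mul_cancel₀ _ this]
    rfl
  rw [e1] at h3
  refine h3.congr' ?_
  filter_upwards [eventually_ge_atTop 2] with X hX
  have hX0 : (0:ℝ) < X := by exact_mod_cast (by omega : 0 < X)
  have hl := (log_two_bd hX).1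
  have hd := (d s hs (fun χ => central χ * E w χ) (GG w) (fun φ n χ hφ hA hn hp h2 h3 hv => by
    have hn0 : φ.r * n ≠ 0 := by
      have h4 := (LnkC.CC1 φ hφ n hA hn).1
      have h5 := r_pos hφ
      have h6 : 0 < φ.r := by exact_mod_cast h5
      positivity
    have : NeZero (φ.r * n) := ⟨hn0⟩
    unfold central GG
    rw [dif_neg hn0]
    have h7 := LnkC.CC5 φ hφ n hA hn ⟨hn0⟩ χ h3 hv (1 / 2) (by norm_num)
    have e2 : (((1 / 2 : ℝ)) : ℂ) = 1 / 2 := by push_cast; rfl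
    rw [e2] at h7
    have h8 : (DirichletCharacter.LFunction χ (1 / 2)).re = LLg φ n (1 / 2) := by
      rw [h7, Complex.ofReal_re]
    rw [E_eq hw]
    congr 1
    congr 1
    refine tsum_congr fun p => ?_
    simp only
    rw [hv p p.2.ne_zero, Complex.ofReal_re]) X).2
  unfold average
  rw [family_eq]
  simp only [Pi.div_apply]
  rw [hd]
  by_cases hc : ((Chs s X).ncard : ℝ) = 0
  · rw [hc]
    simp
  · field_simp

/-- the powers -/
theorem main_pow {w : ℕ → ℝ} (hw : WS w) (k : ℝ) {s : ℤ} (hs : s = 1 ∨ s = -1) :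
    Tendsto (fun X : ℕ => average s X (fun χ => central χ * E w χ ^ k) / Real.log X) atTop
      (𝓝 (co fun n => k * w n)) := by
  refine (main (WS_mul hw k) hs).congr fun X => ?_
  simp only [E_pow hw k]

theorem arith_facts (k : ℝ) : (Summable fun p : Nat.Primes => Real.log (arithFactor k p)) ∧ 0 < arith k := by
  obtain ⟨-, κ₁, κ₂, -, -, h⟩ := a3 0
  have h1 := (h (k - 1)).1
  have e1 : (k - 1 + 1) * (k - 1 + 2) / 2 = k * (k + 1) / 2 := by ring
  rw [e1, sub_add_cancel] at h1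
  have h2 : Summable fun p : Nat.Primes => Real.log (arithFactor k p) := h1
  refine ⟨h2, ?_⟩
  have e2 : Real.exp (∑' p, Real.log (arithFactor k p)) = arith k :=
    Real.rexp_tsum_eq_tprod (f := arithFactor k)
      (fun p => mul_pos (Real.rpow_pos_of_pos (one_sub_pos p) _) (phQ_pos p _)) h2
  rw [← e2]
  exact Real.exp_pos _

theorem arith_eq (k : ℝ) : arith (k + 1) =
    ∏' p : Nat.Primes, (1 - (((p : ℕ) : ℝ))⁻¹) ^ ((k + 1) * (k + 2) / 2) * phQ p (k + 1) := by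
  unfold arith
  refine tprod_congr fun p => ?_
  unfold arithFactor
  rw [show (k + 1) * (k + 1 + 1) / 2 = (k + 1) * (k + 2) / 2 by ring]
  rfl

/-- the central value is real -/
theorem central_real {N : ℕ} [NeZero N] (χ : DirichletCharacter ℂ N) (h1 : χ.IsPrimitive) (h2 : χ ^ 2 = 1) (h3 : χ ≠ 1) :
    χ.LFunction (1 / 2) = (central ⟨N, χ⟩ : ℂ) := by
  obtain ⟨φ, d, hφ, hd, hs, hN, hχ⟩ := LnkC.CLS N (NeZero.ne N) χ h1 h2 h3
  subst hN
  have h7 := LnkC.CC5 φ hφ d hd hs inferInstance χ h3 hχ (1 / 2) (by norm_num)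
  have e2 : (((1 / 2 : ℝ)) : ℂ) = 1 / 2 := by push_cast; rfl
  rw [e2] at h7
  have h8 : central ⟨φ.r * d, χ⟩ = (χ.LFunction (1 / 2)).re := by
    unfold central
    rw [dif_neg (NeZero.ne (φ.r * d))]
  rw [h8, h7, Complex.ofReal_re]

theorem one_lim {N : ℕ} [NeZero N] (χ : DirichletCharacter ℂ N) (h1 : χ.IsPrimitive) (h2 : χ ^ 2 = 1) (h3 : χ ≠ 1)
    {β : ℝ} (hβ : Real.pi / 2 < β) :
    (χ.LFunction (1 / 2) ≠ 0 → Tendsto (fun T : ℝ => E (smooth β T) ⟨N, χ⟩) atTop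
      (𝓝 (√2 * |central ⟨N, χ⟩|))) ∧
    ∃ (m : ℤ) (c : ℝ), meromorphicOrderAt χ.LFunction (1 / 2) = m ∧ 0 < c ∧
      Tendsto (fun T : ℝ => T ^ m * E (smooth β T) ⟨N, χ⟩) atTop (𝓝 c) := by
  obtain ⟨m, hm, hlim⟩ := one_real χ h1 h2 h3 hβ
  have h4 : Tendsto (fun T : ℝ => T ^ m * E (smooth β T) ⟨N, χ⟩) atTop
      (𝓝 (√2 * Real.exp (m * (Pool.Agent.W187.UR.Lam β).re) * ‖meromorphicTrailingCoeffAt χ.LFunction (1 / 2)‖)) := by
    refine hlim.congr' ?_
    filter_upwards [eventually_gt_atTop (0 : ℝ)] with T hT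
    rw [E_eq (WS_smooth β hT)]
    rfl
  have han : AnalyticAt ℂ χ.LFunction (1 / 2) := by
    rw [Complex.analyticAt_iff_eventually_differentiableAt]
    have h4 : (1 / 2 : ℂ) ≠ 1 := by norm_num
    filter_upwards [isOpen_ne.mem_nhds h4] with z hz
    exact DirichletCharacter.differentiableAt_LFunction χ z (Or.inl hz)
  refine ⟨fun hne => ?_, m, _, hm, ?_, h4⟩
  · have hm0 : m = 0 := by
      rw [han.meromorphicOrderAt_eq, han.analyticOrderAt_eq_zero.2 hne] at hm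
      simpa using hm.symm
    rw [hm0, han.meromorphicTrailingCoeffAt_of_ne_zero hne, central_real χ h1 h2 h3, Complex.norm_real] at h4
    simpa using h4
  · have h5 : meromorphicTrailingCoeffAt χ.LFunction (1 / 2) ≠ 0 :=
      han.meromorphicAt.meromorphicTrailingCoeffAt_ne_zero (by rw [hm]; exact WithTop.coe_ne_top)
    positivity

/-- **The first moment times Euler products over all real primitive characters.** -/
theorem result :
    -- the central values are real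
    (∀ (N : ℕ) [NeZero N] (χ : DirichletCharacter ℂ N), χ.IsPrimitive → χ ^ 2 = 1 → χ ≠ 1 →
      χ.LFunction (1 / 2) = (central ⟨N, χ⟩ : ℂ)) ∧
    -- the arithmetic factors converge
    (∀ k : ℝ, (Summable fun p : Nat.Primes => Real.log (arithFactor k p)) ∧ 0 < arith k) ∧
    -- A. general exponents
    (∀ w : ℕ → ℝ, (Summable fun p : Nat.Primes => |w p| * ((p : ℕ) : ℝ) ^ (-(1 / 8) : ℝ)) →
      0 < co w ∧ ∀ s : ℤ, s = 1 ∨ s = -1 →
        Tendsto (fun X : ℕ => average s X (fun χ => central χ * E w χ) / Real.log X) atTop (𝓝 (co w))) ∧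
    -- B. smooth products
    (∀ β : ℝ, ∃ κ₁ κ₂ : ℝ, 0 < κ₁ ∧ 0 < κ₂ ∧
      (∀ k : ℝ,
        (∀ (T : ℝ) (s : ℤ), 0 < T → (s = 1 ∨ s = -1) →
          Tendsto (fun X : ℕ => average s X (fun χ => central χ * E (smooth β T) χ ^ k) / Real.log X) atTop
            (𝓝 (co fun n => k * smooth β T n))) ∧
        Tendsto (fun T : ℝ => (co fun n => k * smooth β T n) / T ^ (k * (k + 3) / 2)) atTop
          (𝓝 (1 / 2 * arith (k + 1) * κ₁ ^ k * κ₂ ^ (k ^ 2)))) ∧
      (Real.pi / 2 < β → ∀ (N : ℕ) [NeZero N] (χ : DirichletCharacter ℂ N), χ.IsPrimitive → χ ^ 2 = 1 → χ ≠ 1 →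
        (χ.LFunction (1 / 2) ≠ 0 → Tendsto (fun T : ℝ => E (smooth β T) ⟨N, χ⟩) atTop
          (𝓝 (√2 * |central ⟨N, χ⟩|))) ∧
        ∃ (m : ℤ) (c : ℝ), meromorphicOrderAt χ.LFunction (1 / 2) = m ∧ 0 < c ∧
          Tendsto (fun T : ℝ => T ^ m * E (smooth β T) ⟨N, χ⟩) atTop (𝓝 c))) := by
  refine ⟨fun N _ χ h1 h2 h3 => central_real χ h1 h2 h3, arith_facts,
    fun w hw => ⟨ck_pos hw, fun s hs => main hw hs⟩, fun β => ?_⟩
  obtain ⟨-, κ₁, κ₂, hκ₁, hκ₂, h⟩ := a3 β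
  refine ⟨κ₁, κ₂, hκ₁, hκ₂, fun k => ⟨fun T s hT hs => main_pow (WS_smooth β hT) k hs, ?_⟩,
    fun hβ N _ χ h1 h2 h3 => one_lim χ h1 h2 h3 hβ⟩
  rw [arith_eq]
  exact (h k).2

end Pool.Agent.Results.MP_ea46f5_nt.FirstMomentEulerProduct
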