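import Mathlib
import Pool.Agent.K4H72.TS.Fin2

/-!
# MP_ea46f5_nt : central moments, low-lying zeros and the moments near the central point

For every integer `k ≥ 1` and all sets of primitive Dirichlet characters of conductor at most `X` (in
particular the quadratic characters of the problem): the `k`-th moments of the largest values of the
derivatives of `L(s, χ)` in the disc of radius `A / log X` about `1/2` (or about `1/2 + iτ`, `|τ| ≤ X`),
weighted by an arbitrary exponential of the number of zeros in the disc, are bounded by the `k`-th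
moments of `|L(1/2 + iu, χ)|` averaged over `|u| ≲ 1 / log X` (`|u - τ| ≲ 1 / log X`), and here `u` may
be restricted to any set `E` which contains a fixed proportion of each interval of length `A / log X`.
-/

set_option autoImplicit false

open MeasureTheory Filter Topology Set Complex
open scoped ENNReal

namespace Pool.Agent.Results.MP_ea46f5_nt.NearCentralMoments

open Pool.Agent.K4H72.MZ Pool.Agent.K4H72.SC Pool.Agent.K4H72.TS

/-- The Dirichlet L-function of a character `χ` of modulus `N ≥ 1`. -/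
noncomputable def L (χ : Σ N : ℕ, DirichletCharacter ℂ N) (s : ℂ) : ℂ :=
  if h : χ.1 = 0 then 0 else (haveI : NeZero χ.1 := ⟨h⟩; χ.2.LFunction s)

/-- The number of zeros of `L(s, χ)` in the closed disc with centre `s` and radius `r`, with
multiplicity. -/
noncomputable def zeroCount (χ : Σ N : ℕ, DirichletCharacter ℂ N) (s : ℂ) (r : ℝ) : ℕ :=
  ∑ᶠ ρ ∈ {ρ : ℂ | ‖ρ - s‖ ≤ r ∧ L χ ρ = 0}, analyticOrderNatAt (L χ) ρ

/-- The largest absolute value of the `j`-th derivative of `L(s, χ)` in the closed disc with centre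
`s` and radius `r`. -/
noncomputable def maxDeriv (χ : Σ N : ℕ, DirichletCharacter ℂ N) (j : ℕ) (s : ℂ) (r : ℝ) : ℝ :=
  sSup ((fun z => ‖iteratedDeriv j (L χ) z‖) '' Metric.closedBall s r)

/-- `∫_E |L(1/2 + iu, χ)|^k (1 + ((u - τ) log X)^2)^(-M) du`. -/
noncomputable def near (k M : ℕ) (X τ : ℝ) (E : Set ℝ) (χ : Σ N : ℕ, DirichletCharacter ℂ N) : ℝ :=
  ∫ u in E, ‖L χ ⟨1 / 2, u⟩‖ ^ k / (1 + ((u - τ) * Real.log X) ^ 2) ^ M

lemma zeroCount_eq (χ : Σ N : ℕ, DirichletCharacter ℂ N) (s : ℂ) (r : ℝ) : ∃ Z : Finset ℂ,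
    (∀ z ∈ Z, ‖z - s‖ ≤ r) ∧ zeroCount χ s r = ∑ z ∈ Z, analyticOrderNatAt (L χ) z := by
  unfold zeroCount
  by_cases h : ({ρ : ℂ | ‖ρ - s‖ ≤ r ∧ L χ ρ = 0} ∩
      Function.support fun ρ => analyticOrderNatAt (L χ) ρ).Finite
  · refine ⟨h.toFinset, fun z hz => ?_, finsum_mem_eq_sum _ h⟩
    rw [Set.Finite.mem_toFinset] at hz
    exact hz.1.1
  · refine ⟨∅, by simp, ?_⟩
    rw [Finset.sum_empty]
    exact finsum_mem_eq_zero_of_infinite h

lemma maxDeriv_nonneg (χ : Σ N : ℕ, DirichletCharacter ℂ N) (j : ℕ) (s : ℂ) (r : ℝ) :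
    0 ≤ maxDeriv χ j s r := by
  unfold maxDeriv
  apply Real.sSup_nonneg
  rintro x ⟨z, -, rfl⟩
  exact norm_nonneg _

lemma maxDeriv_bd {k j : ℕ} (hk : 1 ≤ k) {χ : Σ N : ℕ, DirichletCharacter ℂ N} {s : ℂ} {r c V : ℝ} (hr : 0 ≤ r)
    (hc : 0 < c) (h : ∀ w : ℂ, ‖w - s‖ ≤ r → c * ‖iteratedDeriv j (L χ) w‖ ^ k ≤ V) :
    c * maxDeriv χ j s r ^ k ≤ V := by
  have hV : 0 ≤ V := by
    refine le_trans ?_ (h s (by rwa [sub_self, norm_zero]))
    positivity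
  have hVc : 0 ≤ V / c := by positivity
  set m : ℝ := (V / c) ^ ((k : ℝ)⁻¹) with hm
  have hm0 : 0 ≤ m := Real.rpow_nonneg hVc _
  have hmk : m ^ k = V / c := Real.rpow_inv_natCast_pow hVc (by omega)
  have h1 : maxDeriv χ j s r ≤ m := by
    unfold maxDeriv
    apply csSup_le
    · exact ⟨_, s, Metric.mem_closedBall_self hr, rfl⟩
    · rintro x ⟨z, hz, rfl⟩
      rw [mem_closedBall_iff_norm] at hz
      have h2 := h z hz
      rw [mul_comm, ← le_div_iff₀ hc, ← hmk] at h2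
      exact (pow_le_pow_iff_left₀ (norm_nonneg _) hm0 (by omega)).1 h2
  have h3 : maxDeriv χ j s r ^ k ≤ V / c := by
    rw [← hmk]
    exact pow_le_pow_left₀ (maxDeriv_nonneg _ _ _ _) h1 _
  rw [mul_comm, ← le_div_iff₀ hc]
  exact h3

/-- For `τ = 0` the left side is the sum over `χ` in `F` of
`exp(B * #zeros) * max |L^(j)(s, χ)|^k` over the disc of radius `A / log X` about the central point. -/
theorem result (k : ℕ) (hk : 1 ≤ k) (j P M : ℕ) (hM : 2 * k + 2 + P ≤ M) (A B γ : ℝ) (hA : 0 < A)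
    (hγ : 0 < γ) (hγ1 : γ ≤ 1) :
    ∃ C X₀ : ℝ, ∀ X : ℝ, X₀ ≤ X → ∀ E : Set ℝ, MeasurableSet E →
      (∀ u : ℝ, ENNReal.ofReal (γ * (A / Real.log X)) ≤ volume (E ∩ Icc u (u + A / Real.log X))) →
      ∀ F : Finset (Σ N : ℕ, DirichletCharacter ℂ N),
        (∀ χ ∈ F, 1 < χ.1 ∧ (χ.1 : ℝ) ≤ X ∧ χ.2.IsPrimitive) → ∀ τ : ℝ, |τ| ≤ X →
        ∑ χ ∈ F, Real.exp (B * zeroCount χ ⟨1 / 2, τ⟩ (A / Real.log X)) *
            maxDeriv χ j ⟨1 / 2, τ⟩ (A / Real.log X) ^ k ≤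
          C * Real.log X ^ (j * k + 1) * (∑ χ ∈ F, near k M X τ E χ) + F.card * (X ^ P)⁻¹ := by
  obtain ⟨A0, hA0⟩ := isStandard_dirichlet
  obtain ⟨C, ℓ0, hC, hℓ0, h⟩ := fin_pt2 0 A0 (by norm_num) hk j P hM B hA hγ hγ1
  refine ⟨C, Real.exp ℓ0, fun X hX E hE hth F hF τ hτ => ?_⟩
  have hX0 : 0 < X := (Real.exp_pos _).trans_le hX
  set ℓ : ℝ := Real.log X with hℓ
  have hℓℓ : ℓ0 ≤ ℓ := by
    rw [hℓ, Real.le_log_iff_exp_le hX0]
    exact hX
  have hℓp : 0 < ℓ := by linarith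
  have heX : Real.exp ℓ = X := Real.exp_log hX0
  have hPX : Real.exp (-(P : ℝ) * ℓ) = (X ^ P)⁻¹ := by
    rw [neg_mul, Real.exp_neg, Real.exp_nat_mul, heX]
  have key : ∀ χ ∈ F, Real.exp (B * zeroCount χ ⟨1 / 2, τ⟩ (A / ℓ)) * maxDeriv χ j ⟨1 / 2, τ⟩ (A / ℓ) ^ k ≤
        C * ℓ ^ (j * k + 1) * near k M X τ E χ + (X ^ P)⁻¹ := by
    intro χ hχ
    obtain ⟨h1, h2, h3⟩ := hF χ hχ
    have hne : χ.1 ≠ 0 := by omega
    have : NeZero χ.1 := ⟨hne⟩
    set D : StdL 1 := StdL.mk χ.1 (fun _ => H370.DL.aa χ.2) (fun m _ => χ.2 m)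
      (DirichletCharacter.rootNumber χ.2) (DirichletCharacter.LFunction χ.2) with hD
    have HD : D.IsStandard 0 A0 := hA0 χ.1 χ.2 h1 h3
    have hL : L χ = D.L := by
      funext s
      unfold L
      rw [dif_neg hne]
    have hcond : D.cond (1 / 2) ≤ 3 * Real.exp ℓ := by
      rw [heX]
      have h4 : ‖(1 / 2 : ℂ) + H370.DL.aa χ.2‖ ≤ 3 / 2 := by
        unfold H370.DL.aa
        split_ifs
        · rw [add_zero]
          norm_num
        · have : ((1:ℂ) / 2 + 1) = ((3 / 2 : ℝ) : ℂ) := by push_cast; ring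
          rw [this, Complex.norm_real]
          norm_num
      have h5 : D.cond (1 / 2) = χ.1 * (1 + ‖(1 / 2 : ℂ) + H370.DL.aa χ.2‖) := by
        unfold StdL.cond
        rw [hD]
        simp
      rw [h5]
      have h6 : (0:ℝ) ≤ χ.1 := Nat.cast_nonneg _
      nlinarith
    have hb := h D HD ℓ hℓℓ hcond τ (by rw [heX]; exact hτ) E hE hth
    rw [hPX, ← hL] at hb
    obtain ⟨Z, hZ1, hZ2⟩ := zeroCount_eq χ ⟨1 / 2, τ⟩ (A / ℓ)
    rw [hZ2]
    exact maxDeriv_bd hk (by positivity) (Real.exp_pos _) fun w hw => hb Z hZ1 w hw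
  have hcard : ∑ _χ ∈ F, (X ^ P)⁻¹ = F.card * (X ^ P)⁻¹ := by
    rw [Finset.sum_const, nsmul_eq_mul]
  calc ∑ χ ∈ F, Real.exp (B * zeroCount χ ⟨1 / 2, τ⟩ (A / ℓ)) * maxDeriv χ j ⟨1 / 2, τ⟩ (A / ℓ) ^ k
      ≤ ∑ χ ∈ F, (C * ℓ ^ (j * k + 1) * near k M X τ E χ + (X ^ P)⁻¹) :=
        Finset.sum_le_sum key
    _ = _ := by rw [Finset.sum_add_distrib, ← Finset.mul_sum, hcard]

end Pool.Agent.Results.MP_ea46f5_nt.NearCentralMoments
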