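import Pool.Agent.K4H95.LQ.TN
import Pool.Agent.K4H95.LQ.Pw
import Pool.Agent.K4H95.LQ.R1
import Pool.Agent.K4H95.LQ.R2
import Pool.Agent.K4H95.LQ.I1
import Pool.Agent.K4H95.LQ.I1b
import Pool.Agent.K4H95.LQ.I2
import Pool.Agent.K4H95.LQ.I3
import Pool.Agent.K4H95.LQ.Mert
import Pool.Agent.K4H95.LQ.P1
import Pool.Agent.K4H95.LQ.I4
import Pool.Agent.K4H95.LQ.P2
import Pool.Agent.K4H95.LQ.S
import Pool.Agent.K4H95.LQ.T7
import Pool.Agent.K4H95.LQ.K
import Pool.Agent.K4H95.LQ.L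
import Pool.Agent.K4H95.LQ.Z1
import Pool.Agent.K4H95.LQ.Z2
import Pool.Agent.K4H95.LQ.B2
import Pool.Agent.K4H95.LQ.R4
import Pool.Agent.K4H95.LQ.J
import Pool.Agent.K4H95.LQ.I7

/-!
# Near the centre: the first moment of quadratic Dirichlet L-functions at `1/2 + w / log X` with prescribed values

Let `χ` run over ALL real primitive characters `χ ≠ 1` of a given parity and of conductor `N ≤ X`, with prescribed values
`χ(p) = a(p) ∈ {0, 1, -1}` at EVERY prime `p ≤ Y`, where `Y ≤ log log X / 5`. Let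
`Λ(u, χ) = N^{u/2} γ(1/2 + u)/γ(1/2) L(1/2 + u, χ)` be the completed L-function, normalised by `Λ(0, χ) = L(1/2, χ)`.

A. For real or imaginary `w` with `|w| ≤ A₀` the average of `Λ(w / log X, χ)` over these characters is
`(1/2) M_Y P_Y(a) (kernel(w) log X + O(√Y))` with `kernel(w) = sinh(w/2) / (w/2)` (for `w = i t` this is
`sin(t/2) / (t/2)`), uniformly in `Y`, `w` and in the prescribed values: given all the values at the primes `≤ Y`, the
average of `Λ(w / log X, χ) / P_Y(χ)` does not depend on them.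

B. For every real `k` and real or imaginary `w`, if `Y → ∞` with `X` in any manner with `Y ≤ log log X / 5`, then the average
of `Λ(w / log X, χ) P_Y(χ)^k` is asymptotic to `(1/2) a_{k+1} kernel(w) (e^γ log Y)^{k(k+3)/2} log X`: the arithmetic factor of
Conrey, Farmer, Keating, Rubinstein and Snaith times the kernel of the symplectic group.

Pieces of the proof were written by helper75 (A1, R1, Mom, K), helper26 (A2, S), helper64 (A3, I1b, R4), helper94 (B),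
helper91 (C, P, I6), helper97 (D, I1), helper82 (R2), helper18 (I2, P1, P2), helper62 (I3), helper6 (I4), helper16 (Mert),
helper41 (Z1), helper57 (Z2), helper15 (L, I7), helper88 (B2) and helper45 (J).
-/

set_option autoImplicit false

open Filter Topology

namespace Pool.Agent.Results.MP_ea46f5_nt.NearCentre

/-- The real primitive characters `χ ≠ 1` with `χ(-1) = s` and conductor at most `X`. -/
def family (s : ℤ) (X : ℕ) : Set (Σ N : ℕ, DirichletCharacter ℂ N) :=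
  {χ | χ.1 ≠ 0 ∧ χ.1 ≤ X ∧ χ.2.IsPrimitive ∧ χ.2 ^ 2 = 1 ∧ χ.2 ≠ 1 ∧ χ.2 (-1) = (s : ℂ)}

/-- The primes `≤ Y`. -/
def primesLE (Y : ℕ) : Finset ℕ := (Finset.Icc 1 Y).filter Nat.Prime

/-- The characters of the family with `χ(p) = a(p)` for all primes `p ≤ Y`. -/
def prescribed (s : ℤ) (X Y : ℕ) (a : ℕ → ℝ) : Set (Σ N : ℕ, DirichletCharacter ℂ N) :=
  {χ | χ ∈ family s X ∧ ∀ p ∈ primesLE Y, χ.2 ((p : ℕ) : ZMod χ.1) = (a p : ℂ)}

/-- The average over a finite set of characters. -/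
noncomputable def average (A : Set (Σ N : ℕ, DirichletCharacter ℂ N)) (f : (Σ N : ℕ, DirichletCharacter ℂ N) → ℝ) : ℝ :=
  (∑ᶠ χ ∈ A, f χ) / A.ncard

/-- The completed L-function near the centre, `N^{u/2} γ(1/2 + u) / γ(1/2) L(1/2 + u, χ)`
(`γ(s) = Γ_ℝ(s)` for even `χ`, `Γ_ℝ(s + 1)` for odd `χ`). -/
noncomputable def comp {N : ℕ} [NeZero N] (χ : DirichletCharacter ℂ N) (u : ℂ) : ℂ :=
  (N : ℂ) ^ (u / 2) * (χ.gammaFactor (1 / 2 + u) / χ.gammaFactor (1 / 2)) * χ.LFunction (1 / 2 + u)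

/-- Its real part (for a real character it is real for `u` real or imaginary). -/
noncomputable def value (u : ℂ) (χ : Σ N : ℕ, DirichletCharacter ℂ N) : ℝ :=
  if h : χ.1 = 0 then 0 else (haveI : NeZero χ.1 := ⟨h⟩; (comp χ.2 u).re)

/-- `sinh(w/2) / (w/2)` (real for `w` real or imaginary). -/
noncomputable def kernel (w : ℂ) : ℝ := if w = 0 then 1 else (Complex.sinh (w / 2) / (w / 2)).re

/-- `P_Y(a) = ∏_{p ≤ Y} (1 - a(p) p^{-1/2})^{-1}`. -/
noncomputable def P (Y : ℕ) (a : ℕ → ℝ) : ℝ := ∏ p ∈ primesLE Y, (1 - a p / √(p : ℝ))⁻¹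

/-- `P_Y(χ) = ∏_{p ≤ Y} (1 - χ(p) p^{-1/2})^{-1}`. -/
noncomputable def Pchi (Y : ℕ) (χ : Σ N : ℕ, DirichletCharacter ℂ N) : ℝ :=
  ∏ p ∈ primesLE Y, (1 - (χ.2 ((p : ℕ) : ZMod χ.1)).re / √(p : ℝ))⁻¹

/-- `M_Y = ∏_{p ≤ Y} (1 - 1/p) ∏_{p > Y} (1 - 1/(p(p+1)))`. -/
noncomputable def M (Y : ℕ) : ℝ := (∏ p ∈ primesLE Y, (1 - 1 / (p : ℝ))) *
  ∏' p : Nat.Primes, if (p : ℕ) ≤ Y then (1 : ℝ) else 1 - 1 / (((p : ℕ) : ℝ) * (((p : ℕ) : ℝ) + 1))

/-- `(((1 - p^{-1/2})^{-x} + (1 + p^{-1/2})^{-x}) / 2 + 1/p) / (1 + 1/p)`. -/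
noncomputable def loc (p : ℕ) (x : ℝ) : ℝ :=
  (1 / 2 * ((1 - (√(p : ℝ))⁻¹) ^ (-x) + (1 + (√(p : ℝ))⁻¹) ^ (-x)) + 1 / p) / (1 + 1 / p)

/-- The factor of `a_k` at `p`. -/
noncomputable def arithFactor (k : ℝ) (p : Nat.Primes) : ℝ :=
  (1 - (((p : ℕ) : ℝ))⁻¹) ^ (k * (k + 1) / 2) * loc p k

/-- The arithmetic factor `a_k`. -/
noncomputable def arith (k : ℝ) : ℝ := ∏' p : Nat.Primes, arithFactor k p

open Pool.Agent.X278.AV Pool.Agent.K4H95.LQ Pool.Agent.H306R2.RG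

theorem family_eq (s : ℤ) (X : ℕ) : family s X = Chs s X := by
  ext χ
  unfold family Chs LnkC.RPC
  simp only [Set.mem_ofPred_eq]
  tauto

theorem prescribed_eq (s : ℤ) (X Y : ℕ) (a : ℕ → ℝ) : prescribed s X Y a = Pool.Agent.K4H95.LQ.Sub s X Y a := by
  unfold prescribed Pool.Agent.K4H95.LQ.Sub
  rw [family_eq]
  rfl

theorem arith_facts (k : ℝ) : (Summable fun p : Nat.Primes => Real.log (arithFactor k p)) ∧ 0 < arith k := by
  obtain ⟨-, κ₁, κ₂, -, -, h⟩ := a3 0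
  have h1 := (h (k - 1)).1
  have e1 : (k - 1 + 1) * (k - 1 + 2) / 2 = k * (k + 1) / 2 := by ring
  rw [e1, sub_add_cancel] at h1
  have h2 : Summable fun p : Nat.Primes => Real.log (arithFactor k p) := h1
  refine ⟨h2, ?_⟩
  have e2 : Real.exp (∑' p, Real.log (arithFactor k p)) = arith k :=
    Real.rexp_tsum_eq_tprod (f := arithFactor k)
      (fun p => mul_pos (Real.rpow_pos_of_pos (one_sub_pos p) _) (phQ_pos p _)) h2
  rw [← e2]
  exact Real.exp_pos _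

theorem arith_eq (k : ℝ) : arith (k + 1) =
    ∏' p : Nat.Primes, (1 - (((p : ℕ) : ℝ))⁻¹) ^ ((k + 1) * (k + 2) / 2) * phQ p (k + 1) := by
  unfold arith
  refine tprod_congr fun p => ?_
  unfold arithFactor
  rw [show (k + 1) * (k + 1 + 1) / 2 = (k + 1) * (k + 2) / 2 by ring]
  rfl

theorem prY_pos (Y : ℕ) (a : ℕ → ℝ) : 0 < prY Y a := by
  refine Finset.prod_pos fun p hp => ?_
  have : (0 : ℝ) < p := by exact_mod_cast (Finset.mem_filter.1 hp).2.pos
  unfold pim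
  split_ifs <;> positivity

theorem P_pos (Y : ℕ) {a : ℕ → ℝ} (ha : ∀ p, a p = 0 ∨ a p = 1 ∨ a p = -1) : 0 < P Y a := MomX.PYa_pos ha


theorem fam_a {φ : FD} (hφ : Fam φ) : φ.a = 0 ∨ φ.a = 1 := by
  obtain ⟨ε, hε, h⟩ := hφ
  rcases hε with rfl | rfl <;> rcases h with rfl | rfl | rfl | rfl <;> simp [F8, F4, F1]

theorem fam_r {φ : FD} (hφ : Fam φ) : 0 < φ.r := by
  obtain ⟨ε, hε, h⟩ := hφ
  rcases h with rfl | rfl | rfl | rfl <;> simp [F8, F4, F1]

/-- the gamma factor -/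
theorem gf {φ : FD} (hφ : Fam φ) {d : ℕ} (hd : φ.A d) (hs : Squarefree d) [h0 : NeZero (φ.r * d)]
    (χ : DirichletCharacter ℂ (φ.r * d))
    (hχ : ∀ n : ℕ, n ≠ 0 → χ (n : ZMod (φ.r * d)) = ((cf φ d n : ℝ) : ℂ)) (s : ℂ) :
    χ.gammaFactor s = Complex.Gammaℝ (s + φ.a) := by
  obtain ⟨hd0, χ', h1, h2, h3, h4, h5⟩ := LnkC.CC1 φ hφ d hd hs
  have e : ∀ x : ZMod (φ.r * d), χ x = χ' x := by
    intro x
    have hx : ((x.val + φ.r * d : ℕ) : ZMod (φ.r * d)) = x := by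
      rw [Nat.cast_add, ZMod.natCast_self, add_zero, ZMod.natCast_zmod_val]
    have hne : x.val + φ.r * d ≠ 0 := by
      have := NeZero.ne (φ.r * d)
      omega
    rw [← hx, hχ _ hne, h4 _ hne]
  rw [← e] at h5
  rcases fam_a hφ with ha | ha
  · rw [ha] at h5 ⊢
    rw [if_pos rfl] at h5
    rw [DirichletCharacter.Even.gammaFactor_def h5, Nat.cast_zero, add_zero]
  · rw [ha] at h5 ⊢
    rw [if_neg one_ne_zero] at h5
    rw [DirichletCharacter.Odd.gammaFactor_def h5, Nat.cast_one]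

theorem comp_eq {φ : FD} (hφ : Fam φ) {d : ℕ} (hd : φ.A d) (hs : Squarefree d) [h0 : NeZero (φ.r * d)]
    (χ : DirichletCharacter ℂ (φ.r * d)) (h3 : χ ≠ 1)
    (hχ : ∀ n : ℕ, n ≠ 0 → χ (n : ZMod (φ.r * d)) = ((cf φ d n : ℝ) : ℂ)) :
    (∀ u : ℝ, |u| < 1 / 2 → comp χ u = ((Lc φ d (fun x => Real.cosh (u * x)) : ℝ) : ℂ)) ∧
    ∀ u : ℝ, comp χ (u * Complex.I) = ((Lc φ d (fun x => Real.cos (u * x)) : ℝ) : ℂ) := by
  obtain ⟨h1, h2⟩ := lcc φ hφ d h0 χ hd hs h3 hχ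
  constructor
  · intro u hu
    rw [← h1 u hu]
    unfold comp
    rw [gf hφ hd hs χ hχ, gf hφ hd hs χ hχ]
  · intro u
    rw [← h2 u]
    unfold comp
    rw [gf hφ hd hs χ hχ, gf hφ hd hs χ hχ]

theorem value_mk {N : ℕ} [h : NeZero N] (χ : DirichletCharacter ℂ N) (u : ℂ) : value u ⟨N, χ⟩ = (comp χ u).re := by
  unfold value
  rw [dif_neg (NeZero.ne N)]

/-- the values are real -/
theorem comp_real {N : ℕ} [NeZero N] (χ : DirichletCharacter ℂ N) (h1 : χ.IsPrimitive) (h2 : χ ^ 2 = 1) (h3 : χ ≠ 1) :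
    (∀ u : ℝ, |u| < 1 / 2 → comp χ u = (value u ⟨N, χ⟩ : ℂ)) ∧
    ∀ t : ℝ, comp χ (t * Complex.I) = (value (t * Complex.I) ⟨N, χ⟩ : ℂ) := by
  obtain ⟨φ, d, hφ, hd, hs, hN, hχ⟩ := LnkC.CLS N (NeZero.ne N) χ h1 h2 h3
  subst hN
  obtain ⟨g1, g2⟩ := comp_eq hφ hd hs χ h3 hχ
  refine ⟨fun u hu => ?_, fun t => ?_⟩
  · rw [value_mk, g1 u hu, Complex.ofReal_re]
  · rw [value_mk, g2 t, Complex.ofReal_re]

theorem ker_re (α : ℝ) : kernel (α : ℂ) = if α = 0 then 1 else Real.sinh (α / 2) / (α / 2) := by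
  unfold kernel
  by_cases h : α = 0
  · simp [h]
  · rw [if_neg h, if_neg (by exact_mod_cast h)]
    have : Complex.sinh ((α : ℂ) / 2) / ((α : ℂ) / 2) = ((Real.sinh (α / 2) / (α / 2) : ℝ) : ℂ) := by
      push_cast
      rfl
    rw [this, Complex.ofReal_re]

theorem ker_im (α : ℝ) : kernel (α * Complex.I) = if α = 0 then 1 else Real.sin (α / 2) / (α / 2) := by
  unfold kernel
  by_cases h : α = 0
  · simp [h]
  · have h' : (α : ℂ) ≠ 0 := by exact_mod_cast h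
    rw [if_neg h, if_neg (mul_ne_zero h' Complex.I_ne_zero)]
    have : Complex.sinh ((α : ℂ) * Complex.I / 2) / ((α : ℂ) * Complex.I / 2) =
        ((Real.sin (α / 2) / (α / 2) : ℝ) : ℂ) := by
      have e1 : (α : ℂ) * Complex.I / 2 = ((α : ℂ) / 2) * Complex.I := by ring
      rw [e1, Complex.sinh_mul_I, mul_div_mul_right _ _ Complex.I_ne_zero]
      push_cast
      rfl
    rw [this, Complex.ofReal_re]

theorem int_cosh (u L : ℝ) : ∫ x in (0 : ℝ)..L, Real.cosh (u * x) = if u = 0 then L else Real.sinh (u * L) / u := by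
  by_cases h : u = 0
  · simp [h]
  · rw [if_neg h, intervalIntegral.integral_eq_sub_of_hasDerivAt (f := fun x => Real.sinh (u * x) / u)]
    · simp
    · intro x _
      have h1 : HasDerivAt (fun x : ℝ => Real.sinh (u * x)) (Real.cosh (u * x) * (u * 1)) x :=
        ((hasDerivAt_id x).const_mul u).sinh
      have h2 := h1.div_const u
      rwa [mul_one, mul_div_cancel_right₀ _ h] at h2
    · apply Continuous.intervalIntegrable
      fun_prop

theorem int_cos (u L : ℝ) : ∫ x in (0 : ℝ)..L, Real.cos (u * x) = if u = 0 then L else Real.sin (u * L) / u := by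
  by_cases h : u = 0
  · simp [h]
  · rw [if_neg h, intervalIntegral.integral_eq_sub_of_hasDerivAt (f := fun x => Real.sin (u * x) / u)]
    · simp
    · intro x _
      have h1 : HasDerivAt (fun x : ℝ => Real.sin (u * x)) (Real.cos (u * x) * (u * 1)) x :=
        ((hasDerivAt_id x).const_mul u).sin
      have h2 := h1.div_const u
      rwa [mul_one, mul_div_cancel_right₀ _ h] at h2
    · apply Continuous.intervalIntegrable
      fun_prop

theorem ic_cosh {α x : ℝ} (hx : 0 < Real.log x) :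
    IC (fun y => Real.cosh (α / Real.log x * y)) x = 1 / 2 * kernel (α : ℂ) * Real.log x := by
  unfold IC
  rw [int_cosh, ker_re]
  by_cases h : α = 0
  · simp [h]
    ring
  · rw [if_neg h, if_neg (div_ne_zero h hx.ne')]
    have e1 : α / Real.log x * (Real.log x / 2) = α / 2 := by field_simp
    rw [e1]
    field_simp

theorem ic_cos {α x : ℝ} (hx : 0 < Real.log x) :
    IC (fun y => Real.cos (α / Real.log x * y)) x = 1 / 2 * kernel (α * Complex.I) * Real.log x := by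
  unfold IC
  rw [int_cos, ker_im]
  by_cases h : α = 0
  · simp [h]
    ring
  · rw [if_neg h, if_neg (div_ne_zero h hx.ne')]
    have e1 : α / Real.log x * (Real.log x / 2) = α / 2 := by field_simp
    rw [e1]
    field_simp

theorem abs_fun_cosh (u : ℝ) : (fun x : ℝ => Real.cosh (|u| * x)) = fun x => Real.cosh (u * x) := by
  funext x
  rcases abs_choice u with h | h
  · rw [h]
  · rw [h, neg_mul, Real.cosh_neg]

theorem abs_fun_cos (u : ℝ) : (fun x : ℝ => Real.cos (|u| * x)) = fun x => Real.cos (u * x) := by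
  funext x
  rcases abs_choice u with h | h
  · rw [h]
  · rw [h, neg_mul, Real.cos_neg]

theorem core {A₀ : ℝ} (hA₀ : 0 ≤ A₀) : ∃ K : ℝ, 0 ≤ K ∧ ∀ (s : ℤ) (X Y : ℕ) (a : ℕ → ℝ) (w : ℂ),
    (s = 1 ∨ s = -1) → Pat a → 2 ≤ Y → (Y : ℝ) ≤ Real.log (Real.log X) / 5 → (w.im = 0 ∨ w.re = 0) → ‖w‖ ≤ A₀ →
    8 * A₀ + 1 ≤ Real.log X →
    |∑ᶠ χ ∈ Pool.Agent.K4H95.LQ.Sub s X Y a, value (w / Real.log X) χ -
      3 / Real.pi ^ 2 * (prY Y a * MY Y * PYa Y a) * (X * (1 / 2 * kernel w * Real.log X))| ≤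
      K * (prY Y a * MY Y * PYa Y a) * (1 + √(Y : ℝ)) * X ∧ |1 / 2 * kernel w * Real.log X| ≤ Real.cosh A₀ * Real.log X := by
  obtain ⟨K, hK, h⟩ := tTC i1 i1b i2 i3 i4 p1 p2s (r2 r1 p) k1 z1 z2 b2 r4 jj i7 hA₀
  refine ⟨K, hK, fun s X Y a w hs ha hY hYX hw hwA hX => ?_⟩
  have hL : 0 < Real.log X := by linarith
  have hLc : ((Real.log X : ℝ) : ℂ) ≠ 0 := by exact_mod_cast hL.ne'
  have hu : ∀ α : ℝ, |α| ≤ A₀ → |α / Real.log X| ≤ 1 / 4 ∧ |α / Real.log X| * Real.log X ≤ A₀ := by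
    intro α hα
    rw [abs_div, abs_of_pos hL]
    constructor
    · rw [div_le_iff₀ hL]
      linarith [abs_nonneg α]
    · rwa [div_mul_cancel₀ _ hL.ne']
  rcases hw with hw | hw
  · obtain ⟨α, rfl⟩ : ∃ α : ℝ, w = (α : ℂ) := ⟨w.re, Complex.ext (by simp) (by simp [hw])⟩
    rw [Complex.norm_real, Real.norm_eq_abs] at hwA
    obtain ⟨u1, u2⟩ := hu α hwA
    have hos := os_cosh (abs_nonneg (α / Real.log X))
    have e1 : ((α : ℂ)) / ((Real.log X : ℝ) : ℂ) = ((α / Real.log X : ℝ) : ℂ) := by push_cast; rfl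
    have h1 := h s X Y a _ _ _ (value ((α : ℂ) / Real.log X)) hs ha hY hYX hos u1 u2 (by
      intro φ d χ hφ hd hsq _ _ h3 hχ
      have hd0 := (LnkC.CC1 φ hφ d hd hsq).1
      haveI : NeZero (φ.r * d) := ⟨(Nat.mul_pos (fam_r hφ) hd0).ne'⟩
      rw [value_mk, e1, (comp_eq hφ hd hsq χ h3 hχ).1 _ (by linarith), Complex.ofReal_re, abs_fun_cosh])
    rw [abs_fun_cosh, ic_cosh hL] at h1
    refine ⟨h1, ?_⟩
    rw [← ic_cosh hL, ← abs_fun_cosh]
    have h2 := ic_diff hos (le_refl (0 : ℝ)) (y := Real.log X / 2) (A₀ := A₀) (by positivity) (by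
      have : |α / Real.log X| * (Real.log X / 2) = |α / Real.log X| * Real.log X / 2 := by ring
      rw [this]
      linarith)
    unfold IC
    refine h2.trans ?_
    have := Real.one_le_cosh A₀
    nlinarith
  · obtain ⟨α, rfl⟩ : ∃ α : ℝ, w = (α : ℂ) * Complex.I := ⟨w.im, Complex.ext (by simp [hw]) (by simp)⟩
    rw [norm_mul, Complex.norm_I, mul_one, Complex.norm_real, Real.norm_eq_abs] at hwA
    obtain ⟨u1, u2⟩ := hu α hwA
    have hos := os_cos (abs_nonneg (α / Real.log X))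
    have e1 : ((α : ℂ)) * Complex.I / ((Real.log X : ℝ) : ℂ) = ((α / Real.log X : ℝ) : ℂ) * Complex.I := by
      push_cast
      ring
    have h1 := h s X Y a _ _ _ (value ((α : ℂ) * Complex.I / Real.log X)) hs ha hY hYX hos u1 u2 (by
      intro φ d χ hφ hd hsq _ _ h3 hχ
      have hd0 := (LnkC.CC1 φ hφ d hd hsq).1
      haveI : NeZero (φ.r * d) := ⟨(Nat.mul_pos (fam_r hφ) hd0).ne'⟩
      rw [value_mk, e1, (comp_eq hφ hd hsq χ h3 hχ).2 _, Complex.ofReal_re, abs_fun_cos])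
    rw [abs_fun_cos, ic_cos hL] at h1
    refine ⟨h1, ?_⟩
    rw [← ic_cos hL, ← abs_fun_cos]
    have h2 := ic_diff hos (le_refl (0 : ℝ)) (y := Real.log X / 2) (A₀ := A₀) (by positivity) (by
      have : |α / Real.log X| * (Real.log X / 2) = |α / Real.log X| * Real.log X / 2 := by ring
      rw [this]
      linarith)
    unfold IC
    refine h2.trans ?_
    have := Real.one_le_cosh A₀
    nlinarith

/-- the number -/
theorem stN : StN := tN p2s (r2 r1 p)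

/-- the averages over the characters with prescribed values -/
theorem avg (A₀ : ℝ) (hA₀ : 0 ≤ A₀) : ∃ K : ℝ, 0 ≤ K ∧ ∀ (s : ℤ) (X Y : ℕ) (a : ℕ → ℝ) (w : ℂ), (s = 1 ∨ s = -1) →
    (∀ p, a p = 0 ∨ a p = 1 ∨ a p = -1) → K ≤ X → 2 ≤ Y → (Y : ℝ) ≤ Real.log (Real.log X) / 5 →
    (w.im = 0 ∨ w.re = 0) → ‖w‖ ≤ A₀ →
      |average (prescribed s X Y a) (value (w / Real.log X)) - 1 / 2 * (M Y * P Y a) * (kernel w * Real.log X)| ≤
        K * (M Y * P Y a) * √(Y : ℝ) := by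
  obtain ⟨K₁, hK₁, hT⟩ := core hA₀
  obtain ⟨K₂, hK₂, hN⟩ := stN
  set c : ℝ := 3 / Real.pi ^ 2 with hc
  have hc0 : 0 < c := by positivity
  have hH : 0 < Real.cosh A₀ := Real.cosh_pos _
  refine ⟨max (max ((2 * K₂ / c) ^ 4) (Real.exp (8 * A₀ + 1))) (4 / c * (K₁ + 4 * Real.cosh A₀ * K₂)),
    le_max_of_le_right (by positivity), ?_⟩
  intro s X Y a w hs ha hKX hY hYX hw hwA
  have hX1 : (2 * K₂ / c) ^ 4 ≤ X := ((le_max_left _ _).trans (le_max_left _ _)).trans hKX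
  have hX2 : Real.exp (8 * A₀ + 1) ≤ X := ((le_max_right _ _).trans (le_max_left _ _)).trans hKX
  have hX0 : (0 : ℝ) < X := (Real.exp_pos _).trans_le hX2
  have hlog : 8 * A₀ + 1 ≤ Real.log X := by rwa [Real.le_log_iff_exp_le hX0]
  have h1 := hN s X Y a hs ha hY (ll_facts hY hYX).1
  obtain ⟨h2, h3⟩ := hT s X Y a w hs ha hY hYX hw hwA hlog
  rw [← prescribed_eq] at h1 h2
  change |((prescribed s X Y a).ncard : ℝ) - c * prY Y a * X| ≤ K₂ * prY Y a * (X : ℝ) ^ (3 / 4 : ℝ) at h1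
  change |∑ᶠ χ ∈ prescribed s X Y a, value (w / Real.log X) χ -
    c * (prY Y a * M Y * P Y a) * (X * (1 / 2 * kernel w * Real.log X))| ≤
    K₁ * (prY Y a * M Y * P Y a) * (1 + √(Y : ℝ)) * X at h2
  have hMP : 0 < M Y * P Y a := mul_pos (mert.2 Y) (P_pos Y ha)
  rw [show prY Y a * M Y * P Y a = prY Y a * (M Y * P Y a) by ring] at h2
  have h4 := avg_gen hK₁ hK₂ hH.le hc0 (prY_pos Y a) hMP hX1 hX0 hY h1 h2 h3
  have e1 : M Y * P Y a * (1 / 2 * kernel w * Real.log X) = 1 / 2 * (M Y * P Y a) * (kernel w * Real.log X) := by ring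
  rw [e1] at h4
  refine h4.trans ?_
  gcongr
  exact le_max_right _ _

/-- **The first moment near the centre with prescribed values at all primes up to `Y`, uniformly for
`Y ≤ log log X / 5`.** -/
theorem result :
    -- the values are real
    (∀ (N : ℕ) [NeZero N] (χ : DirichletCharacter ℂ N), χ.IsPrimitive → χ ^ 2 = 1 → χ ≠ 1 →
      (∀ u : ℝ, |u| < 1 / 2 → comp χ u = (value u ⟨N, χ⟩ : ℂ)) ∧
      ∀ t : ℝ, comp χ (t * Complex.I) = (value (t * Complex.I) ⟨N, χ⟩ : ℂ)) ∧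
    -- the kernel
    (∀ a : ℝ, kernel a = (if a = 0 then 1 else Real.sinh (a / 2) / (a / 2)) ∧
      kernel (a * Complex.I) = if a = 0 then 1 else Real.sin (a / 2) / (a / 2)) ∧
    -- the arithmetic factors converge
    (∀ k : ℝ, (Summable fun p : Nat.Primes => Real.log (arithFactor k p)) ∧ 0 < arith k) ∧
    -- the factor `M_Y`
    ((∀ Y, 0 < M Y) ∧
      Tendsto (fun Y : ℕ => M Y * (Real.exp Real.eulerMascheroniConstant * Real.log Y)) atTop (𝓝 1)) ∧
    -- A. prescribed values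
    (∀ A₀ : ℝ, 0 ≤ A₀ → ∃ K : ℝ, 0 ≤ K ∧ ∀ (s : ℤ) (X Y : ℕ) (a : ℕ → ℝ) (w : ℂ), (s = 1 ∨ s = -1) →
      (∀ p, a p = 0 ∨ a p = 1 ∨ a p = -1) → K ≤ X → 2 ≤ Y → (Y : ℝ) ≤ Real.log (Real.log X) / 5 →
      (w.im = 0 ∨ w.re = 0) → ‖w‖ ≤ A₀ →
        |average (prescribed s X Y a) (value (w / Real.log X)) -
            1 / 2 * (M Y * P Y a) * (kernel w * Real.log X)| ≤ K * (M Y * P Y a) * √(Y : ℝ)) ∧
    -- B. the joint limit
    (∀ (k : ℝ) (w : ℂ) (s : ℤ), (w.im = 0 ∨ w.re = 0) → (s = 1 ∨ s = -1) → ∀ Y : ℕ → ℕ, Tendsto Y atTop atTop →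
      (∀ᶠ X : ℕ in atTop, (Y X : ℝ) ≤ Real.log (Real.log X) / 5) →
      Tendsto (fun X : ℕ => average (family s X) (fun χ => value (w / Real.log X) χ * Pchi (Y X) χ ^ k) /
          (Real.log X * (Real.exp Real.eulerMascheroniConstant * Real.log (Y X)) ^ (k * (k + 3) / 2))) atTop
        (𝓝 (1 / 2 * arith (k + 1) * kernel w))) := by
  refine ⟨fun N _ χ h1 h2 h3 => comp_real χ h1 h2 h3, fun a => ⟨ker_re a, ker_im a⟩, arith_facts, ⟨mert.2, mert.1⟩, avg, ?_⟩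
  intro k w s hw hs Y hY hYX
  obtain ⟨K, hK, h⟩ := core (norm_nonneg w)
  have hlogX : Tendsto (fun X : ℕ => Real.log X) atTop atTop :=
    Real.tendsto_log_atTop.comp tendsto_natCast_atTop_atTop
  have hYX' : ∀ᶠ X : ℕ in atTop, (Y X : ℝ) ≤ Real.log X / 1000 := by
    filter_upwards [hYX, hY.eventually_ge_atTop 2] with X h1 h2
    exact (ll_facts h2 h1).1
  have h1 := lim_gen idt Pool.Agent.K4H95.LQ.s mert k hs hY hYX' (K := K) (κ := 1 / 2 * kernel w) hK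
    (fun X => value (w / Real.log X)) (by
      filter_upwards [hYX, hY.eventually_ge_atTop 2, hlogX.eventually_ge_atTop (8 * ‖w‖ + 1)] with X g1 g2 g3
      have h4 := MomX.mom_gen (value (w / Real.log X)) hs (X := X) (Y := Y X)
        (m := 3 / Real.pi ^ 2 * (X * (1 / 2 * kernel w * Real.log X))) (B := K * (1 + √(Y X : ℝ)) * X) (fun a ha => by
          have h5 := (h s X (Y X) a w hs ha g2 g1 hw le_rfl g3).1
          rw [show 3 / Real.pi ^ 2 * (prY (Y X) a * MY (Y X) * PYa (Y X) a) * (X * (1 / 2 * kernel w * Real.log X)) =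
            3 / Real.pi ^ 2 * (X * (1 / 2 * kernel w * Real.log X)) * (prY (Y X) a * MY (Y X) * PYa (Y X) a) by ring,
            show K * (prY (Y X) a * MY (Y X) * PYa (Y X) a) * (1 + √(Y X : ℝ)) * X =
            K * (1 + √(Y X : ℝ)) * X * (prY (Y X) a * MY (Y X) * PYa (Y X) a) by ring] at h5
          exact h5) k
      exact h4)
  rw [← arith_eq] at h1
  simp only [← family_eq] at h1
  have e1 : 2 * (1 / 2 * kernel w) * (1 / 2 * arith (k + 1)) = 1 / 2 * arith (k + 1) * kernel w := by ring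
  rw [e1] at h1
  exact h1

end Pool.Agent.Results.MP_ea46f5_nt.NearCentre
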