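import Pool.Agent.K4H95.LQ.TN
import Pool.Agent.K4H95.LQ.Pw
import Pool.Agent.K4H95.LQ.R1
import Pool.Agent.K4H95.LQ.R2
import Pool.Agent.K4H95.LQ.I1
import Pool.Agent.K4H95.LQ.I1b
import Pool.Agent.K4H95.LQ.I2
import Pool.Agent.K4H95.LQ.I3
import Pool.Agent.K4H95.LQ.Mert
import Pool.Agent.K4H95.LQ.P1
import Pool.Agent.K4H95.LQ.I4
import Pool.Agent.K4H95.LQ.PieceI6
import Pool.Agent.K4H95.LQ.P2
import Pool.Agent.K4H95.LQ.Mom
import Pool.Agent.K4H95.LQ.S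
import Pool.Agent.K4H95.LQ.Lim

/-!
# Uniform splitting: the first moment of quadratic Dirichlet L-functions with prescribed values at all primes up to `Y`

Let `χ` run over ALL real primitive characters `χ ≠ 1` of a given parity and of conductor `≤ X` (the Kronecker symbols
`(d/·)`, `d ≠ 1` a fundamental discriminant of a given sign, `|d| ≤ X`). Prescribe the value `χ(p) = a(p)`, one of
`0, 1, -1`, at EVERY prime `p ≤ Y`, where `Y ≤ log X / 1000`. Let `dens(p, 0) = 1/(p+1)`, `dens(p, ±1) = p/(2(p+1))`,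
`density(a) = ∏_{p ≤ Y} dens(p, a(p))` and `P_Y(a) = ∏_{p ≤ Y} (1 - a(p) p^{-1/2})^{-1}`.

A. Uniformly in `Y` and in the prescribed values: the number of these characters is
`(3/π²) density(a) (X + O(X^{3/4}))`, and the average of `L(1/2, χ)` over them is
`(1/2) M_Y P_Y(a) (log X + O(√Y))`, where `M_Y ~ 1/(e^γ log Y)` does not depend on the prescribed values: given all the
values at the primes `≤ Y`, `L(1/2, χ) / P_Y(χ)` has always the same average.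

B. Hence for every real `k`, uniformly for `Y ≤ log X / 1000`, the sum of `L(1/2, χ) P_Y(χ)^k` over all the characters is
`(3/π²) (1/2) M_Y ∏_{p ≤ Y} loc_p(k + 1) X (log X + O(√Y))`.

C. If `Y → ∞` with `X` in any manner with `Y ≤ log X / 1000`, then the average of `L(1/2, χ) P_Y(χ)^k` is asymptotic to
`(1/2) a_{k+1} (e^γ log Y)^{k(k+3)/2} log X`, with the arithmetic factor
`a_k = ∏_p (1 - 1/p)^{k(k+1)/2} loc_p(k)` of Conrey, Farmer, Keating, Rubinstein and Snaith.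

Altogether there are `1 + k(k+3)/2 = (k+1)(k+2)/2` logarithms, as in the conjecture for the moment of the order `k + 1`,
and the arithmetic factor is the conjectured one.

Pieces of the proof were written by helper75 (A1, R1, Mom), helper26 (A2, S), helper64 (A3, I1b), helper94 (B),
helper91 (C, P, I6), helper97 (D, I1), helper82 (R2), helper18 (I2, P1, P2), helper62 (I3), helper6 (I4) and
helper16 (Mert).
-/

set_option autoImplicit false

open Filter Topology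

namespace Pool.Agent.Results.MP_ea46f5_nt.UniformSplitting

/-- The real primitive characters `χ ≠ 1` with `χ(-1) = s` and conductor at most `X`. -/
def family (s : ℤ) (X : ℕ) : Set (Σ N : ℕ, DirichletCharacter ℂ N) :=
  {χ | χ.1 ≠ 0 ∧ χ.1 ≤ X ∧ χ.2.IsPrimitive ∧ χ.2 ^ 2 = 1 ∧ χ.2 ≠ 1 ∧ χ.2 (-1) = (s : ℂ)}

/-- The primes `≤ Y`. -/
def primesLE (Y : ℕ) : Finset ℕ := (Finset.Icc 1 Y).filter Nat.Prime

/-- The characters of the family with `χ(p) = a(p)` for all primes `p ≤ Y`. -/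
def prescribed (s : ℤ) (X Y : ℕ) (a : ℕ → ℝ) : Set (Σ N : ℕ, DirichletCharacter ℂ N) :=
  {χ | χ ∈ family s X ∧ ∀ p ∈ primesLE Y, χ.2 ((p : ℕ) : ZMod χ.1) = (a p : ℂ)}

/-- The average over a finite set of characters. -/
noncomputable def average (A : Set (Σ N : ℕ, DirichletCharacter ℂ N)) (f : (Σ N : ℕ, DirichletCharacter ℂ N) → ℝ) : ℝ :=
  (∑ᶠ χ ∈ A, f χ) / A.ncard

/-- The central value `L(1/2, χ)` (its real part; it is real for a real character). -/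
noncomputable def central (χ : Σ N : ℕ, DirichletCharacter ℂ N) : ℝ :=
  if h : χ.1 = 0 then 0 else (haveI : NeZero χ.1 := ⟨h⟩; (χ.2.LFunction (1 / 2)).re)

/-- The density of the value `x` at `p`: `1/(p+1)` for `x = 0`, `p/(2(p+1))` for `x = ±1`. -/
noncomputable def dens (p : ℕ) (x : ℝ) : ℝ := if x = 0 then 1 / ((p : ℝ) + 1) else (p : ℝ) / (2 * ((p : ℝ) + 1))

/-- The density of the values `a(p)`, `p ≤ Y`. -/
noncomputable def density (Y : ℕ) (a : ℕ → ℝ) : ℝ := ∏ p ∈ primesLE Y, dens p (a p)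

/-- `P_Y(a) = ∏_{p ≤ Y} (1 - a(p) p^{-1/2})^{-1}`. -/
noncomputable def P (Y : ℕ) (a : ℕ → ℝ) : ℝ := ∏ p ∈ primesLE Y, (1 - a p / √(p : ℝ))⁻¹

/-- `P_Y(χ) = ∏_{p ≤ Y} (1 - χ(p) p^{-1/2})^{-1}`. -/
noncomputable def Pchi (Y : ℕ) (χ : Σ N : ℕ, DirichletCharacter ℂ N) : ℝ :=
  ∏ p ∈ primesLE Y, (1 - (χ.2 ((p : ℕ) : ZMod χ.1)).re / √(p : ℝ))⁻¹

/-- `M_Y = ∏_{p ≤ Y} (1 - 1/p) ∏_{p > Y} (1 - 1/(p(p+1)))`. -/
noncomputable def M (Y : ℕ) : ℝ := (∏ p ∈ primesLE Y, (1 - 1 / (p : ℝ))) *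
  ∏' p : Nat.Primes, if (p : ℕ) ≤ Y then (1 : ℝ) else 1 - 1 / (((p : ℕ) : ℝ) * (((p : ℕ) : ℝ) + 1))

/-- `(((1 - p^{-1/2})^{-x} + (1 + p^{-1/2})^{-x}) / 2 + 1/p) / (1 + 1/p)`. -/
noncomputable def loc (p : ℕ) (x : ℝ) : ℝ :=
  (1 / 2 * ((1 - (√(p : ℝ))⁻¹) ^ (-x) + (1 + (√(p : ℝ))⁻¹) ^ (-x)) + 1 / p) / (1 + 1 / p)

/-- The factor of `a_k` at `p`. -/
noncomputable def arithFactor (k : ℝ) (p : Nat.Primes) : ℝ :=
  (1 - (((p : ℕ) : ℝ))⁻¹) ^ (k * (k + 1) / 2) * loc p k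

/-- The arithmetic factor `a_k`. -/
noncomputable def arith (k : ℝ) : ℝ := ∏' p : Nat.Primes, arithFactor k p

open Pool.Agent.X278.AV Pool.Agent.K4H95.LQ Pool.Agent.H306R2.RG

theorem family_eq (s : ℤ) (X : ℕ) : family s X = Chs s X := by
  ext χ
  unfold family Chs LnkC.RPC
  simp only [Set.mem_ofPred_eq]
  tauto

theorem prescribed_eq (s : ℤ) (X Y : ℕ) (a : ℕ → ℝ) : prescribed s X Y a = Pool.Agent.K4H95.LQ.Sub s X Y a := by
  unfold prescribed Pool.Agent.K4H95.LQ.Sub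
  rw [family_eq]
  rfl

theorem arith_facts (k : ℝ) : (Summable fun p : Nat.Primes => Real.log (arithFactor k p)) ∧ 0 < arith k := by
  obtain ⟨-, κ₁, κ₂, -, -, h⟩ := a3 0
  have h1 := (h (k - 1)).1
  have e1 : (k - 1 + 1) * (k - 1 + 2) / 2 = k * (k + 1) / 2 := by ring
  rw [e1, sub_add_cancel] at h1
  have h2 : Summable fun p : Nat.Primes => Real.log (arithFactor k p) := h1
  refine ⟨h2, ?_⟩
  have e2 : Real.exp (∑' p, Real.log (arithFactor k p)) = arith k :=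
    Real.rexp_tsum_eq_tprod (f := arithFactor k)
      (fun p => mul_pos (Real.rpow_pos_of_pos (one_sub_pos p) _) (phQ_pos p _)) h2
  rw [← e2]
  exact Real.exp_pos _

theorem arith_eq (k : ℝ) : arith (k + 1) =
    ∏' p : Nat.Primes, (1 - (((p : ℕ) : ℝ))⁻¹) ^ ((k + 1) * (k + 2) / 2) * phQ p (k + 1) := by
  unfold arith
  refine tprod_congr fun p => ?_
  unfold arithFactor
  rw [show (k + 1) * (k + 1 + 1) / 2 = (k + 1) * (k + 2) / 2 by ring]
  rfl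

/-- the central value is real -/
theorem central_real {N : ℕ} [NeZero N] (χ : DirichletCharacter ℂ N) (h1 : χ.IsPrimitive) (h2 : χ ^ 2 = 1) (h3 : χ ≠ 1) :
    χ.LFunction (1 / 2) = (central ⟨N, χ⟩ : ℂ) := by
  obtain ⟨φ, d, hφ, hd, hs, hN, hχ⟩ := LnkC.CLS N (NeZero.ne N) χ h1 h2 h3
  subst hN
  have h7 := LnkC.CC5 φ hφ d hd hs inferInstance χ h3 hχ (1 / 2) (by norm_num)
  have e2 : (((1 / 2 : ℝ)) : ℂ) = 1 / 2 := by push_cast; rfl
  rw [e2] at h7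
  have h8 : central ⟨φ.r * d, χ⟩ = (χ.LFunction (1 / 2)).re := by
    unfold central
    rw [dif_neg (NeZero.ne (φ.r * d))]
  rw [h8, h7, Complex.ofReal_re]

theorem dens_pos {p : ℕ} (hp : p.Prime) (x : ℝ) : 0 < dens p x := by
  have : (0 : ℝ) < p := by exact_mod_cast hp.pos
  unfold dens
  split_ifs <;> positivity

theorem density_pos (Y : ℕ) (a : ℕ → ℝ) : 0 < density Y a :=
  Finset.prod_pos fun _ hp => dens_pos (Finset.mem_filter.1 hp).2 _

theorem P_pos (Y : ℕ) {a : ℕ → ℝ} (ha : ∀ p, a p = 0 ∨ a p = 1 ∨ a p = -1) : 0 < P Y a := MomX.PYa_pos ha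

/-- the first moment with prescribed values -/
theorem stT : StT := tT i1 i1b i2 i3 i4 i6 p1 p2s (r2 r1 p)

/-- the number -/
theorem stN : StN := tN p2s (r2 r1 p)

/-- the averages over the characters with prescribed values -/
theorem avg : ∃ K : ℝ, 0 ≤ K ∧ ∀ (s : ℤ) (X Y : ℕ) (a : ℕ → ℝ), (s = 1 ∨ s = -1) →
    (∀ p, a p = 0 ∨ a p = 1 ∨ a p = -1) → K ≤ X → 2 ≤ Y → (Y : ℝ) ≤ Real.log X / 1000 →
      |((prescribed s X Y a).ncard : ℝ) - 3 / Real.pi ^ 2 * density Y a * X| ≤ K * density Y a * (X : ℝ) ^ (3 / 4 : ℝ) ∧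
      |average (prescribed s X Y a) central - 1 / 2 * (M Y * P Y a) * Real.log X| ≤ K * (M Y * P Y a) * √(Y : ℝ) := by
  obtain ⟨K₁, hK₁, hT⟩ := stT
  obtain ⟨K₂, hK₂, hN⟩ := stN
  set c : ℝ := 3 / Real.pi ^ 2 with hc
  have hc0 : 0 < c := by positivity
  refine ⟨max ((2 * K₂ / c) ^ 4) (max K₂ (4 / c * (K₁ + 2 * K₂))), le_max_of_le_left (by positivity), ?_⟩
  intro s X Y a hs ha hKX hY hYX
  have hX1 : (2 * K₂ / c) ^ 4 ≤ X := (le_max_left _ _).trans hKX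
  have hY2 : (2 : ℝ) ≤ Y := by exact_mod_cast hY
  have hlog : 0 < Real.log X := by linarith
  have hX0 : (0 : ℝ) < X := by
    rcases Nat.eq_zero_or_pos X with h | h
    · rw [h] at hlog
      simp at hlog
    · exact_mod_cast h
  have hD := density_pos Y a
  have hP := P_pos Y ha
  have hM : 0 < M Y := mert.2 Y
  set D := density Y a with hDdef
  set MP := M Y * P Y a with hMP
  have hMP0 : 0 < MP := mul_pos hM hP
  have h1 := hN s X Y a hs ha hY hYX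
  have h2 := hT s X Y a hs ha hY hYX
  rw [← prescribed_eq] at h1 h2
  change |((prescribed s X Y a).ncard : ℝ) - c * D * X| ≤ K₂ * D * (X : ℝ) ^ (3 / 4 : ℝ) at h1
  change |∑ᶠ χ ∈ prescribed s X Y a, central χ - c * (1 / 2 * (D * M Y * P Y a)) * (X * Real.log X)| ≤
    K₁ * (D * M Y * P Y a) * (1 + √(Y : ℝ)) * X at h2
  have e1 : D * M Y * P Y a = D * MP := by rw [hMP]; ring
  rw [e1] at h2
  have hq : (X : ℝ) ^ (3 / 4 : ℝ) * (X : ℝ) ^ (1 / 4 : ℝ) = X := by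
    rw [← Real.rpow_add hX0]
    norm_num
  have hx34 : 0 < (X : ℝ) ^ (3 / 4 : ℝ) := Real.rpow_pos_of_pos hX0 _
  have hx14 : 2 * K₂ / c ≤ (X : ℝ) ^ (1 / 4 : ℝ) := by
    have h3 : ((2 * K₂ / c) ^ 4) ^ (1 / 4 : ℝ) ≤ (X : ℝ) ^ (1 / 4 : ℝ) :=
      Real.rpow_le_rpow (by positivity) hX1 (by norm_num)
    have h4 : ((2 * K₂ / c) ^ 4) ^ (1 / 4 : ℝ) = 2 * K₂ / c := by
      rw [show (1 / 4 : ℝ) = ((4 : ℕ) : ℝ)⁻¹ by norm_num]
      exact Real.pow_rpow_inv_natCast (by positivity) (by norm_num)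
    rwa [h4] at h3
  have hK34 : K₂ * (X : ℝ) ^ (3 / 4 : ℝ) ≤ c / 2 * X := by
    rw [div_le_iff₀ hc0] at hx14
    calc K₂ * (X : ℝ) ^ (3 / 4 : ℝ) = 1 / 2 * ((X : ℝ) ^ (3 / 4 : ℝ) * (2 * K₂)) := by ring
      _ ≤ 1 / 2 * ((X : ℝ) ^ (3 / 4 : ℝ) * ((X : ℝ) ^ (1 / 4 : ℝ) * c)) := by gcongr
      _ = c / 2 * ((X : ℝ) ^ (3 / 4 : ℝ) * (X : ℝ) ^ (1 / 4 : ℝ)) := by ring
      _ = c / 2 * X := by rw [hq]
  have hlogX : Real.log X ≤ 4 * (X : ℝ) ^ (1 / 4 : ℝ) := by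
    have h5 := Real.log_le_rpow_div hX0.le (ε := 1 / 4) (by norm_num)
    linarith
  set n : ℝ := ((prescribed s X Y a).ncard : ℝ) with hn
  set S : ℝ := ∑ᶠ χ ∈ prescribed s X Y a, central χ with hS
  have hn0 : c / 2 * D * X ≤ n := by
    have h6 := (abs_le.1 h1).1
    have h7 : K₂ * D * (X : ℝ) ^ (3 / 4 : ℝ) ≤ D * (c / 2 * X) := by
      calc K₂ * D * (X : ℝ) ^ (3 / 4 : ℝ) = D * (K₂ * (X : ℝ) ^ (3 / 4 : ℝ)) := by ring
        _ ≤ _ := by gcongr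
    nlinarith
  have hnpos : 0 < n := lt_of_lt_of_le (by positivity) hn0
  refine ⟨h1.trans ?_, ?_⟩
  · have : K₂ ≤ max ((2 * K₂ / c) ^ 4) (max K₂ (4 / c * (K₁ + 2 * K₂))) := le_max_of_le_right (le_max_left _ _)
    gcongr
  · have e2 : average (prescribed s X Y a) central - 1 / 2 * MP * Real.log X =
        (S - 1 / 2 * MP * Real.log X * n) / n := by
      unfold average
      rw [← hn, ← hS]
      field_simp
    rw [e2, abs_div, abs_of_pos hnpos, div_le_iff₀ hnpos]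
    have h8 : |S - 1 / 2 * MP * Real.log X * n| ≤ D * MP * X * ((1 + √(Y : ℝ)) * (K₁ + 2 * K₂)) := by
      have e3 : S - 1 / 2 * MP * Real.log X * n = (S - c * (1 / 2 * (D * MP)) * (X * Real.log X)) -
          1 / 2 * MP * Real.log X * (n - c * D * X) := by ring
      rw [e3]
      refine (abs_sub _ _).trans ?_
      have h9 : |1 / 2 * MP * Real.log X * (n - c * D * X)| ≤ 1 / 2 * MP * Real.log X * (K₂ * D * (X : ℝ) ^ (3 / 4 : ℝ)) := by
        rw [abs_mul, abs_of_nonneg (by positivity)]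
        gcongr
      have h10 : 1 / 2 * MP * Real.log X * (K₂ * D * (X : ℝ) ^ (3 / 4 : ℝ)) ≤ D * MP * X * (2 * K₂) := by
        calc 1 / 2 * MP * Real.log X * (K₂ * D * (X : ℝ) ^ (3 / 4 : ℝ))
            ≤ 1 / 2 * MP * (4 * (X : ℝ) ^ (1 / 4 : ℝ)) * (K₂ * D * (X : ℝ) ^ (3 / 4 : ℝ)) := by gcongr
          _ = 2 * MP * K₂ * D * ((X : ℝ) ^ (3 / 4 : ℝ) * (X : ℝ) ^ (1 / 4 : ℝ)) := by ring
          _ = D * MP * X * (2 * K₂) := by rw [hq]; ring
      have h11 : D * MP * X * (2 * K₂) ≤ D * MP * X * ((1 + √(Y : ℝ)) * (2 * K₂)) := by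
        have : 2 * K₂ ≤ (1 + √(Y : ℝ)) * (2 * K₂) := by
          have h12 := Real.sqrt_nonneg (Y : ℝ)
          nlinarith [mul_nonneg h12 hK₂]
        gcongr
      have h12 : K₁ * (D * MP) * (1 + √(Y : ℝ)) * X = D * MP * X * ((1 + √(Y : ℝ)) * K₁) := by ring
      rw [h12] at h2
      calc _ ≤ D * MP * X * ((1 + √(Y : ℝ)) * K₁) + D * MP * X * ((1 + √(Y : ℝ)) * (2 * K₂)) := by linarith
        _ = _ := by ring
    have h13 : 1 + √(Y : ℝ) ≤ 2 * √(Y : ℝ) := by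
      have : (1 : ℝ) ≤ √(Y : ℝ) := by
        rw [Real.one_le_sqrt]
        linarith
      linarith
    calc |S - 1 / 2 * MP * Real.log X * n| ≤ D * MP * X * ((1 + √(Y : ℝ)) * (K₁ + 2 * K₂)) := h8
      _ ≤ D * MP * X * (2 * √(Y : ℝ) * (K₁ + 2 * K₂)) := by gcongr
      _ = 4 / c * (K₁ + 2 * K₂) * MP * √(Y : ℝ) * (c / 2 * D * X) := by
        field_simp
        ring
      _ ≤ 4 / c * (K₁ + 2 * K₂) * MP * √(Y : ℝ) * n := by gcongr
      _ ≤ _ := by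
        have : 4 / c * (K₁ + 2 * K₂) ≤ max ((2 * K₂ / c) ^ 4) (max K₂ (4 / c * (K₁ + 2 * K₂))) :=
          le_max_of_le_right (le_max_right _ _)
        gcongr

/-- **The first moment with prescribed values at all primes up to `Y`, uniformly for `Y ≤ log X / 1000`.** -/
theorem result :
    -- the central values are real
    (∀ (N : ℕ) [NeZero N] (χ : DirichletCharacter ℂ N), χ.IsPrimitive → χ ^ 2 = 1 → χ ≠ 1 →
      χ.LFunction (1 / 2) = (central ⟨N, χ⟩ : ℂ)) ∧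
    -- the arithmetic factors converge
    (∀ k : ℝ, (Summable fun p : Nat.Primes => Real.log (arithFactor k p)) ∧ 0 < arith k) ∧
    -- the factor `M_Y`
    ((∀ Y, 0 < M Y) ∧
      Tendsto (fun Y : ℕ => M Y * (Real.exp Real.eulerMascheroniConstant * Real.log Y)) atTop (𝓝 1)) ∧
    -- A. prescribed values
    (∃ K : ℝ, 0 ≤ K ∧ ∀ (s : ℤ) (X Y : ℕ) (a : ℕ → ℝ), (s = 1 ∨ s = -1) →
      (∀ p, a p = 0 ∨ a p = 1 ∨ a p = -1) → K ≤ X → 2 ≤ Y → (Y : ℝ) ≤ Real.log X / 1000 →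
        |((prescribed s X Y a).ncard : ℝ) - 3 / Real.pi ^ 2 * density Y a * X| ≤
          K * density Y a * (X : ℝ) ^ (3 / 4 : ℝ) ∧
        |average (prescribed s X Y a) central - 1 / 2 * (M Y * P Y a) * Real.log X| ≤
          K * (M Y * P Y a) * √(Y : ℝ)) ∧
    -- B. mixed moments, uniformly
    (∀ k : ℝ, ∃ K : ℝ, 0 ≤ K ∧ ∀ (s : ℤ) (X Y : ℕ), (s = 1 ∨ s = -1) → 2 ≤ Y → (Y : ℝ) ≤ Real.log X / 1000 →
      |∑ᶠ χ ∈ family s X, central χ * Pchi Y χ ^ k -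
          3 / Real.pi ^ 2 * (1 / 2 * (M Y * ∏ p ∈ primesLE Y, loc p (k + 1))) * (X * Real.log X)| ≤
        K * (M Y * ∏ p ∈ primesLE Y, loc p (k + 1)) * √(Y : ℝ) * X) ∧
    -- C. the joint limit
    (∀ (k : ℝ) (s : ℤ), (s = 1 ∨ s = -1) → ∀ Y : ℕ → ℕ, Tendsto Y atTop atTop →
      (∀ᶠ X : ℕ in atTop, (Y X : ℝ) ≤ Real.log X / 1000) →
      Tendsto (fun X : ℕ => average (family s X) (fun χ => central χ * Pchi (Y X) χ ^ k) /
          (Real.log X * (Real.exp Real.eulerMascheroniConstant * Real.log (Y X)) ^ (k * (k + 3) / 2))) atTop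
        (𝓝 (1 / 2 * arith (k + 1)))) := by
  refine ⟨fun N _ χ h1 h2 h3 => central_real χ h1 h2 h3, arith_facts, ⟨mert.2, mert.1⟩, avg, ?_, ?_⟩
  · intro k
    obtain ⟨K, hK, h⟩ := mom stT k
    refine ⟨2 * K, by positivity, ?_⟩
    intro s X Y hs hY hYX
    have h1 := h s X Y hs hY hYX
    rw [← family_eq] at h1
    refine h1.trans ?_
    have hQ : 0 ≤ MY Y * ∏ p ∈ prLE Y, phQ p (k + 1) := by
      refine mul_nonneg (mert.2 Y).le (Finset.prod_nonneg fun p hp => ?_)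
      exact (phQ_pos ⟨p, (Finset.mem_filter.1 hp).2⟩ (k + 1)).le
    have hY2 : (2 : ℝ) ≤ Y := by exact_mod_cast hY
    have h13 : 1 + √(Y : ℝ) ≤ 2 * √(Y : ℝ) := by
      have : (1 : ℝ) ≤ √(Y : ℝ) := by
        rw [Real.one_le_sqrt]
        linarith
      linarith
    calc K * (MY Y * ∏ p ∈ prLE Y, phQ p (k + 1)) * (1 + √(Y : ℝ)) * X
        ≤ K * (MY Y * ∏ p ∈ prLE Y, phQ p (k + 1)) * (2 * √(Y : ℝ)) * X := by gcongr
      _ = 2 * K * (MY Y * ∏ p ∈ prLE Y, phQ p (k + 1)) * √(Y : ℝ) * X := by ring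
  · intro k s hs Y hY hYX
    have h1 := lim stT mom idt Pool.Agent.K4H95.LQ.s mert k s hs Y hY hYX
    rw [← arith_eq] at h1
    simp only [← family_eq] at h1
    exact h1

end Pool.Agent.Results.MP_ea46f5_nt.UniformSplitting
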